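import Mathlib

open Cardinal Set

universe v u

namespace Pool.Agent.Helper98.DeltaReg

section core

variable {T : Type v} [LinearOrder T]

/-- The shapes used to enumerate small types: a length `β` and a colour for every index below. -/
abbrev Shape (T : Type v) [LinearOrder T] : Type v := Σ β : T, (Iio β → T)

/-- The well-founded trees built from shapes. -/
abbrev Tree (T : Type v) [LinearOrder T] : Type v :=
  WType (α := Shape T) (fun a => Iio a.1)

open Classical in
/-- Evaluate a tree: pick a witness of the type coded by the tree. -/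
noncomputable def eval (c : (T → Bool) → (T → Bool) → T) : Tree T → (T → Bool) :=
  WType.elim (T → Bool) (fun p =>
    if h : ∃ x : T → Bool, ∀ i : Iio p.1.1, x ≠ p.2 i ∧ c (p.2 i) x = p.1.2 i then
      Classical.choose h else default)

theorem eval_spec (c : (T → Bool) → (T → Bool) → T) (β : T) (l : Iio β → T)
    (f : Iio β → Tree T)
    (h : ∃ x : T → Bool, ∀ i : Iio β, x ≠ eval c (f i) ∧ c (eval c (f i)) x = l i) :
    ∀ i : Iio β, eval c (WType.mk (⟨β, l⟩ : Shape T) f) ≠ eval c (f i) ∧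
      c (eval c (f i)) (eval c (WType.mk (⟨β, l⟩ : Shape T) f)) = l i := by
  have h2 : eval c (WType.mk (⟨β, l⟩ : Shape T) f) = Classical.choose h := by
    unfold eval
    rw [WType.elim]
    exact dif_pos h
  intro i
  rw [h2]
  exact Classical.choose_spec h i

/-- The set of values at the immediate children. -/
noncomputable def kids (c : (T → Bool) → (T → Bool) → T) : Tree T → Set (T → Bool)
  | WType.mk _ f => Set.range (fun i => eval c (f i))

theorem tree_card (A : Type v) [Infinite A] (hT : #T ≤ 2 ^ #A)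
    (hpow : ∀ β : T, (2 : Cardinal.{v}) ^ #(Iio β) ≤ 2 ^ #A) : #(Tree T) ≤ 2 ^ #A := by
  have hA : ℵ₀ ≤ #A := Cardinal.aleph0_le_mk A
  have key : ∀ β : T, ((2 : Cardinal.{v}) ^ #A) ^ #(Iio β) ≤ 2 ^ #A := by
    intro β
    calc ((2 : Cardinal.{v}) ^ #A) ^ #(Iio β) = (2 ^ #(Iio β)) ^ #A := by
          rw [← Cardinal.power_mul, ← Cardinal.power_mul, mul_comm]
      _ ≤ (2 ^ #A) ^ #A := Cardinal.power_le_power_right (hpow β)
      _ = 2 ^ #A := by rw [← Cardinal.power_mul, Cardinal.mul_eq_self hA]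
  have hinf : ℵ₀ ≤ (2 : Cardinal.{v}) ^ #A := hA.trans (Cardinal.cantor _).le
  have hshape : #(Shape T) ≤ 2 ^ #A := by
    rw [Cardinal.mk_sigma]
    calc (Cardinal.sum fun β : T => #(Iio β → T)) ≤ Cardinal.sum fun _ : T => (2 ^ #A : Cardinal.{v}) := by
          apply Cardinal.sum_le_sum
          intro β
          rw [← Cardinal.power_def]
          exact (Cardinal.power_le_power_right hT).trans (key β)
      _ = #T * 2 ^ #A := by rw [Cardinal.sum_const']
      _ ≤ 2 ^ #A * 2 ^ #A := by gcongr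
      _ = 2 ^ #A := Cardinal.mul_eq_self hinf
  apply WType.cardinalMk_le_of_le
  calc (Cardinal.sum fun a : Shape T => (2 ^ #A) ^ #(Iio a.fst))
      ≤ Cardinal.sum fun _ : Shape T => (2 ^ #A : Cardinal.{v}) :=
        Cardinal.sum_le_sum _ _ (fun a => key a.1)
    _ = #(Shape T) * 2 ^ #A := by rw [Cardinal.sum_const']
    _ ≤ 2 ^ #A * 2 ^ #A := by gcongr
    _ = 2 ^ #A := Cardinal.mul_eq_self hinf

/-- The closed set `M`, given by the values of all trees. -/
theorem exists_closed (c : (T → Bool) → (T → Bool) → T) (A : Type v) [Infinite A]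
    (hT : #T ≤ 2 ^ #A) (hpow : ∀ β : T, (2 : Cardinal.{v}) ^ #(Iio β) ≤ 2 ^ #A) :
    ∃ M : Set (T → Bool), #M ≤ 2 ^ #A ∧
      (∀ (β : T) (l : Iio β → T) (g : Iio β → (T → Bool)), (∀ i, g i ∈ M) →
        (∃ x : T → Bool, ∀ i, x ≠ g i ∧ c (g i) x = l i) →
        ∃ x ∈ M, ∀ i, x ≠ g i ∧ c (g i) x = l i) ∧
      #{S : Set (T → Bool) | ∃ β : T, ∃ g : Iio β → (T → Bool), (∀ i, g i ∈ M) ∧ S = Set.range g}
        ≤ 2 ^ #A := by
  have hW := tree_card A hT hpow
  refine ⟨Set.range (eval c), Cardinal.mk_range_le.trans hW, ?_, ?_⟩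
  · intro β l g hg hx
    choose f hf using hg
    have hgf : g = fun i => eval c (f i) := funext fun i => (hf i).symm
    subst hgf
    exact ⟨_, ⟨WType.mk (⟨β, l⟩ : Shape T) f, rfl⟩, eval_spec c β l f hx⟩
  · refine le_trans ?_ (Cardinal.mk_range_le.trans hW : #(Set.range (kids c)) ≤ 2 ^ #A)
    apply Cardinal.mk_le_mk_of_subset
    rintro S ⟨β, g, hg, rfl⟩
    choose f hf using hg
    refine ⟨WType.mk (⟨β, fun _ => β⟩ : Shape T) f, ?_⟩
    simp only [kids]
    congr 1
    funext i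
    exact hf i

/-- Monochromatic sets (for an arbitrary function of two variables). -/
def Mono {X : Type*} {C : Type*} (c : X → X → C) (γ : C) (Y : Set X) : Prop :=
  ∀ x ∈ Y, ∀ y ∈ Y, x ≠ y → c x y = γ

theorem exists_maximal {X C : Type*} (c : X → X → C) (γ : C) (M : Set X) (x : X) :
    ∃ F : Set X, F ⊆ M ∧ Mono c γ F ∧ (∀ y ∈ F, c y x = γ) ∧
      ∀ z ∈ M, (∀ y ∈ F, z ≠ y ∧ c y z = γ ∧ c z y = γ) → c z x ≠ γ := by
  obtain ⟨F, hF⟩ := zorn_subset {F : Set X | F ⊆ M ∧ Mono c γ F ∧ (∀ y ∈ F, c y x = γ)} (by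
    intro C hC hchain
    refine ⟨⋃₀ C, ⟨?_, ?_, ?_⟩, fun s hs => Set.subset_sUnion_of_mem hs⟩
    · exact Set.sUnion_subset fun s hs => (hC hs).1
    · intro a ha b hb hab
      obtain ⟨s, hs, has⟩ := ha
      obtain ⟨t, ht, hbt⟩ := hb
      rcases hchain.total hs ht with h | h
      · exact (hC ht).2.1 a (h has) b hbt hab
      · exact (hC hs).2.1 a has b (h hbt) hab
    · intro y hy
      obtain ⟨s, hs, hys⟩ := hy
      exact (hC hs).2.2 y hys)
  refine ⟨F, hF.prop.1, hF.prop.2.1, hF.prop.2.2, ?_⟩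
  intro z hz hzF hzx
  have hmem : insert z F ∈ {F : Set X | F ⊆ M ∧ Mono c γ F ∧ (∀ y ∈ F, c y x = γ)} := by
    refine ⟨Set.insert_subset hz hF.prop.1, ?_, ?_⟩
    · intro a ha b hb hab
      rcases ha with rfl | ha
      · rcases hb with rfl | hb
        · exact absurd rfl hab
        · exact (hzF b hb).2.2
      · rcases hb with rfl | hb
        · exact (hzF a ha).2.1
        · exact hF.prop.2.1 a ha b hb hab
    · intro y hy
      rcases hy with rfl | hy
      · exact hzx
      · exact hF.prop.2.2 y hy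
  have hsub : insert z F ⊆ F := hF.le_of_ge hmem (Set.subset_insert z F)
  exact (hzF z (hsub (Set.mem_insert z F))).1 rfl

/-- Every small subset of `M` is the range of a map defined on a proper initial segment. -/
theorem small_enum [WellFoundedLT T] [Nonempty T] {X : Type v} {J : Type v}
    (hcof : ∀ ρ : Cardinal.{v}, ρ < #T → ∃ β : T, ρ ≤ #(Iio β)) (hJ : #J < #T) (_ : J → X) :
    ∃ β : T, ∃ t : Iio β → J, Function.Surjective t := by
  rcases isEmpty_or_nonempty J with hJe | hJn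
  · obtain ⟨b, hb⟩ : ∃ b : T, ∀ a, ¬ a < b :=
      ⟨wellFounded_lt.min Set.univ Set.univ_nonempty, fun a => wellFounded_lt.not_lt_min _ (Set.mem_univ a)⟩
    exact ⟨b, fun i => absurd i.2 (hb i.1), fun j => (hJe.false j).elim⟩
  · obtain ⟨β, hβ⟩ := hcof _ hJ
    obtain ⟨e⟩ := (Cardinal.le_def _ _).1 hβ
    exact ⟨β, Function.invFun e, Function.invFun_surjective e.injective⟩

/-- The core partition theorem. -/
theorem core_mono [WellFoundedLT T] (c : (T → Bool) → (T → Bool) → T) (m : T)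
    (A : Type v) [Infinite A] (hAT : (2 : Cardinal.{v}) ^ #A < 2 ^ #T)
    (hpow : ∀ ρ : Cardinal.{v}, ρ < #T → (2 : Cardinal.{v}) ^ ρ ≤ 2 ^ #A)
    (hIio : ∀ β : T, #(Iio β) < #T)
    (hcof : ∀ ρ : Cardinal.{v}, ρ < #T → ∃ β : T, ρ ≤ #(Iio β))
    (hreg : (#T).IsRegular)
    (hsymm : ∀ x y, c x y = c y x)
    (hc : ∀ x y, x ≠ y → c x y < m ∨ ∀ i ≤ c x y, x i = y i) :
    ∃ γ, ∃ Y : Set (T → Bool), #T ≤ #Y ∧ Mono c γ Y := by
  by_contra hno
  push Not at hno
  have hsmall : ∀ γ (Y : Set (T → Bool)), Mono c γ Y → #Y < #T := fun γ Y hY => by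
    by_contra h
    exact hno γ Y (not_lt.1 h) hY
  have : Nonempty T := ⟨m⟩
  have hA : ℵ₀ ≤ #A := Cardinal.aleph0_le_mk A
  have hT : #T ≤ 2 ^ #A :=
    le_of_forall_lt fun ρ hρ => (Cardinal.cantor ρ).trans_le (hpow ρ hρ)
  obtain ⟨M, hM, hclosed, hsub⟩ := exists_closed c A hT (fun β => hpow _ (hIio β))
  choose F hFM hFmono hFx hFmax using fun (x : T → Bool) (γ : T) => exists_maximal c γ M x
  have hFsmall : ∀ x γ, #(F x γ) < #T := fun x γ => hsmall γ _ (hFmono x γ)
  -- the main separation property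
  have hP : ∀ x y : T → Bool, x ∉ M → y ∉ M → ∀ δ : T, m ≤ δ → (∀ γ < δ, F x γ = F y γ) →
      x δ = y δ := by
    intro x y hx hy δ hδ hF
    let J : Type v := Σ γ : Iio δ, ↥(F x γ)
    have hJ : #J < #T := by
      rw [Cardinal.mk_sigma]
      exact Cardinal.sum_lt_of_isRegular hreg (hIio δ) (fun i => hFsmall x i)
    obtain ⟨β, t, ht⟩ := small_enum (T := T) hcof hJ (fun j => (j.2 : T → Bool))
    obtain ⟨x', hx'M, hx'⟩ := hclosed β (fun i => (t i).1) (fun i => (t i).2)
      (fun i => hFM _ _ (t i).2.2)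
      ⟨x, fun i => ⟨fun h => hx (h ▸ hFM _ _ (t i).2.2), hFx x _ _ (t i).2.2⟩⟩
    have hx'' : ∀ γ < δ, ∀ z ∈ F x γ, x' ≠ z ∧ c z x' = γ := by
      intro γ hγ z hz
      obtain ⟨i, hi⟩ := ht ⟨⟨γ, hγ⟩, ⟨z, hz⟩⟩
      have := hx' i
      rw [hi] at this
      exact this
    have hge : ∀ z : T → Bool, z ∉ M → (∀ γ < δ, F x γ = F z γ) → x' δ = z δ := by
      intro z hz hFz
      have hne : x' ≠ z := fun h => hz (h ▸ hx'M)
      have hcz : ¬ c x' z < δ := by
        intro hlt
        refine hFmax z (c x' z) x' hx'M ?_ rfl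
        intro y' hy'
        rw [← hFz _ hlt] at hy'
        have h1 := hx'' _ hlt y' hy'
        exact ⟨h1.1, h1.2, by rw [hsymm]; exact h1.2⟩
      rcases hc x' z hne with h | h
      · exact absurd (h.trans_le hδ) hcz
      · exact h δ (not_lt.1 hcz)
    rw [← hge x hx (fun _ _ => rfl), ← hge y hy hF]
  -- coding of small subsets of `M`
  have hFin : ∀ x γ, F x γ ∈ {S : Set (T → Bool) | ∃ β : T, ∃ g : Iio β → (T → Bool),
      (∀ i, g i ∈ M) ∧ S = Set.range g} := by
    intro x γ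
    obtain ⟨β, t, ht⟩ := small_enum (T := T) hcof (hFsmall x γ) (fun j => (j : T → Bool))
    refine ⟨β, fun i => t i, fun i => hFM _ _ (t i).2, ?_⟩
    ext z
    constructor
    · intro hz
      obtain ⟨i, hi⟩ := ht ⟨z, hz⟩
      exact ⟨i, by simp [hi]⟩
    · rintro ⟨i, rfl⟩
      exact (t i).2
  have hAB : #(A → Bool) = 2 ^ #A := by simp
  rw [← hAB] at hsub
  obtain ⟨e⟩ := (Cardinal.le_def _ _).1 hsub
  let H : A → (T → Bool) → (T → Bool) := fun a x γ => e ⟨F x γ, hFin x γ⟩ a
  obtain ⟨K, hK⟩ : ∃ K : (T → Bool) → Option M, ∀ x y, K x = K y → (x ∈ M ∨ y ∈ M) → x = y := by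
    classical
    refine ⟨fun x => if h : x ∈ M then some ⟨x, h⟩ else none, ?_⟩
    intro x y hxy hor
    by_cases hx : x ∈ M
    · by_cases hy : y ∈ M
      · simpa [hx, hy] using hxy
      · simp [hx, hy] at hxy
    · by_cases hy : y ∈ M
      · simp [hx, hy] at hxy
      · tauto
  let I : (T → Bool) → (List A → (Iio m → Bool) × Option M) := fun x σ =>
    (fun i => (σ.foldl (fun z a => H a z) x) i, K (σ.foldl (fun z a => H a z) x))
  have hcard : #(List A → (Iio m → Bool) × Option M) ≤ 2 ^ #A := by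
    have hinf : ℵ₀ ≤ (2 : Cardinal.{v}) ^ #A := hA.trans (Cardinal.cantor _).le
    have h1 : #(Iio m → Bool) ≤ 2 ^ #A := by
      have : #(Iio m → Bool) = 2 ^ #(Iio m) := by simp
      rw [this]
      exact hpow _ (hIio m)
    have h2 : #(Option M) ≤ 2 ^ #A := by
      rw [Cardinal.mk_option]
      exact Cardinal.add_le_of_le hinf hM (Cardinal.one_le_aleph0.trans hinf)
    have h3 : #((Iio m → Bool) × Option M) ≤ 2 ^ #A := by
      rw [Cardinal.mk_prod, Cardinal.lift_id, Cardinal.lift_id]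
      calc _ ≤ (2 : Cardinal.{v}) ^ #A * 2 ^ #A := by gcongr
        _ = 2 ^ #A := Cardinal.mul_eq_self hinf
    rw [← Cardinal.power_def, Cardinal.mk_list_eq_mk]
    calc _ ≤ ((2 : Cardinal.{v}) ^ #A) ^ #A := Cardinal.power_le_power_right h3
      _ = 2 ^ #A := by rw [← Cardinal.power_mul, Cardinal.mul_eq_self hA]
  have hnotinj : ¬ Function.Injective I := by
    intro hinj
    have h1 := Cardinal.mk_le_of_injective hinj
    have h2 : #(T → Bool) = 2 ^ #T := by simp
    rw [h2] at h1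
    exact absurd (h1.trans hcard) (not_le.2 hAT)
  have hmain : ∀ δ : T, ∀ x y : T → Bool, (∀ i < δ, x i = y i) → x δ ≠ y δ → I x ≠ I y := by
    intro δ
    induction δ using WellFoundedLT.induction with
    | ind δ ih =>
      intro x y hlt hne hI
      have hnil := congrFun hI []
      have hmδ : m ≤ δ := by
        by_contra h
        have := congrFun (congrArg Prod.fst hnil) ⟨δ, not_le.1 h⟩
        exact hne this
      have hxy : x ≠ y := fun h => hne (by rw [h])
      have h2 : K x = K y := congrArg Prod.snd hnil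
      have hx : x ∉ M := fun hx => hxy (hK x y h2 (Or.inl hx))
      have hy : y ∉ M := fun hy => hxy (hK x y h2 (Or.inr hy))
      obtain ⟨γ, hγ, hFγ⟩ : ∃ γ < δ, F x γ ≠ F y γ := by
        by_contra h
        push Not at h
        exact hne (hP x y hx hy δ hmδ h)
      obtain ⟨a, ha⟩ : ∃ a, H a x γ ≠ H a y γ := by
        by_contra h
        push Not at h
        apply hFγ
        have : e ⟨F x γ, hFin x γ⟩ = e ⟨F y γ, hFin y γ⟩ := funext h
        simpa using e.injective this
      have hex : ({i : T | H a x i ≠ H a y i} : Set T).Nonempty := ⟨γ, ha⟩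
      let δ' := wellFounded_lt.min _ hex
      have hδ' : H a x δ' ≠ H a y δ' := wellFounded_lt.min_mem _ hex
      have hδ'γ : δ' ≤ γ := not_lt.1 (wellFounded_lt.not_lt_min _ ha)
      refine ih δ' (hδ'γ.trans_lt hγ) (H a x) (H a y) ?_ hδ' ?_
      · intro i hi
        by_contra hne'
        exact wellFounded_lt.not_lt_min {i : T | H a x i ≠ H a y i} hne' hi
      · funext σ
        exact congrFun hI (a :: σ)
  apply hnotinj
  intro x y hI
  by_contra hxy
  have hex : ({i : T | x i ≠ y i} : Set T).Nonempty := by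
    by_contra h
    rw [Set.not_nonempty_iff_eq_empty] at h
    apply hxy
    funext i
    by_contra hi
    have : i ∈ ({i : T | x i ≠ y i} : Set T) := hi
    rw [h] at this
    exact this
  refine hmain (wellFounded_lt.min _ hex) x y ?_ (wellFounded_lt.min_mem _ hex) hI
  intro i hi
  by_contra hne'
  exact wellFounded_lt.not_lt_min {i : T | x i ≠ y i} hne' hi

end core

end Pool.Agent.Helper98.DeltaReg
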