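import Mathlib

namespace Pool.Agent.Helper98.Ring

/-- The gap from sensor `i` to the next sensor `i+1` (cyclically), computed from lifts. -/
noncomputable def gap {n : ℕ} [NeZero n] (L : ℝ) (x : Fin n → ℝ) (i : Fin n) : ℝ :=
  x (i + 1) - x i + (if i + 1 = 0 then L else 0)

theorem strictMono_of_gap {m : ℕ} (L : ℝ) (x : Fin (m + 1) → ℝ)
    (h : ∀ i, 0 < gap L x i) : StrictMono x ∧ ∀ i j, x j < x i + L := by
  have h1 : StrictMono x := by
    rw [Fin.strictMono_iff_lt_succ]
    intro i
    have := h i.castSucc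
    unfold gap at this
    have h2 : i.castSucc + 1 = i.succ := by
      simp
    rw [h2, if_neg (Fin.succ_ne_zero i)] at this
    linarith
  refine ⟨h1, ?_⟩
  intro i j
  have h2 := h (Fin.last m)
  unfold gap at h2
  have h3 : Fin.last m + 1 = 0 := by simp
  rw [h3, if_pos rfl] at h2
  have h4 : x j ≤ x (Fin.last m) := h1.monotone (Fin.le_last j)
  have h5 : x 0 ≤ x i := h1.monotone (Fin.zero_le i)
  linarith

theorem sum_gap {n : ℕ} [NeZero n] (L : ℝ) (x : Fin n → ℝ) : ∑ i, gap L x i = L := by
  unfold gap
  rw [Finset.sum_add_distrib, Finset.sum_sub_distrib]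
  have h1 : ∑ i : Fin n, x (i + 1) = ∑ i, x i := Equiv.sum_comp (Equiv.addRight (1 : Fin n)) x
  rw [h1, sub_self, zero_add]
  have h2 : (∑ i : Fin n, if i + 1 = 0 then L else 0) = ∑ i : Fin n, if i = -1 then L else 0 := by
    apply Finset.sum_congr rfl
    intro i _
    simp only [← eq_neg_iff_add_eq_zero]
  rw [h2]
  simp

/-- The nearest sensor on the positive side is the next one, at distance `gap i`. -/
theorem nearest_right {m : ℕ} (L : ℝ) (x : Fin (m + 1) → ℝ)
    (h : ∀ i, 0 < gap L x i) (i : Fin (m + 1)) :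
    (∃ j : Fin (m + 1), ∃ k : ℤ, x j + k * L = x i + gap L x i) ∧
    ∀ u : ℝ, 0 < u → (∃ j : Fin (m + 1), ∃ k : ℤ, x j + k * L = x i + u) → gap L x i ≤ u := by
  obtain ⟨hmono, hlast⟩ := strictMono_of_gap L x h
  have hL : 0 < L := by
    have := hlast 0 0
    linarith
  refine ⟨⟨i + 1, if i + 1 = 0 then 1 else 0, ?_⟩, ?_⟩
  · unfold gap
    split_ifs <;> push_cast <;> ring
  · rintro u hu ⟨j, k, hjk⟩
    have hu' : u = x j + k * L - x i := by linarith
    unfold gap
    rcases lt_trichotomy k 0 with hk | hk | hk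
    · exfalso
      have h1 : (k : ℝ) ≤ -1 := by exact_mod_cast Int.le_sub_one_of_lt hk
      have h2 := hlast i j
      nlinarith
    · subst hk
      have hij : i < j := by
        rw [← hmono.lt_iff_lt]
        simp only [Int.cast_zero, zero_mul, add_zero] at hjk
        linarith
      have hne : i ≠ Fin.last m := fun h => by
        rw [h] at hij
        exact absurd (Fin.le_last j) (not_le.2 hij)
      obtain ⟨i', rfl⟩ := Fin.exists_castSucc_eq.2 hne
      have h2 : i'.castSucc + 1 = i'.succ := by simp
      rw [h2, if_neg (Fin.succ_ne_zero i')]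
      have h3 : x i'.succ ≤ x j := hmono.monotone (Fin.castSucc_lt_iff_succ_le.1 hij)
      rw [hu']
      push_cast
      linarith
    · have h1 : (1 : ℝ) ≤ (k : ℝ) := by exact_mod_cast hk
      have h2 : L ≤ k * L := by nlinarith
      rw [hu']
      by_cases hi : i + 1 = 0
      · rw [hi, if_pos rfl]
        have h3 : x 0 ≤ x j := hmono.monotone (Fin.zero_le j)
        linarith
      · rw [if_neg hi]
        have h3 := hlast j (i + 1)
        linarith

/-- The nearest sensor on the negative side is the previous one, at distance `gap (i-1)`. -/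
theorem nearest_left {m : ℕ} (L : ℝ) (x : Fin (m + 1) → ℝ)
    (h : ∀ i, 0 < gap L x i) (i : Fin (m + 1)) :
    (∃ j : Fin (m + 1), ∃ k : ℤ, x j + k * L = x i - gap L x (i - 1)) ∧
    ∀ u : ℝ, 0 < u → (∃ j : Fin (m + 1), ∃ k : ℤ, x j + k * L = x i - u) →
      gap L x (i - 1) ≤ u := by
  obtain ⟨hmono, hlast⟩ := strictMono_of_gap L x h
  have hL : 0 < L := by
    have := hlast 0 0
    linarith
  refine ⟨⟨i - 1, if i = 0 then -1 else 0, ?_⟩, ?_⟩
  · unfold gap
    rw [sub_add_cancel]
    split_ifs <;> push_cast <;> ring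
  · rintro u hu ⟨j, k, hjk⟩
    have hu' : u = x i - (x j + k * L) := by linarith
    unfold gap
    rw [sub_add_cancel]
    rcases lt_trichotomy k 0 with hk | hk | hk
    · have h1 : (k : ℝ) ≤ -1 := by exact_mod_cast Int.le_sub_one_of_lt hk
      have h2 : k * L ≤ -L := by nlinarith
      rw [hu']
      by_cases hi : i = 0
      · rw [if_pos hi]
        subst hi
        have h4 : (0 : Fin (m + 1)) - 1 = Fin.last m := by
          rw [sub_eq_iff_eq_add]; simp
        rw [h4]
        have h3 : x j ≤ x (Fin.last m) := hmono.monotone (Fin.le_last j)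
        linarith
      · rw [if_neg hi]
        have h3 := hlast (i - 1) j
        linarith
    · subst hk
      simp only [Int.cast_zero, zero_mul, add_zero] at hjk hu'
      have hij : j < i := by
        rw [← hmono.lt_iff_lt]
        linarith
      have hne : i ≠ 0 := fun h => by
        rw [h] at hij
        exact absurd (Fin.zero_le j) (not_le.2 hij)
      obtain ⟨i', rfl⟩ := Fin.exists_succ_eq.2 hne
      have h2 : i'.succ - 1 = i'.castSucc := by
        rw [sub_eq_iff_eq_add]; simp
      rw [h2, if_neg (Fin.succ_ne_zero i')]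
      have h3 : x j ≤ x i'.castSucc := hmono.monotone (Fin.le_castSucc_iff.2 hij)
      rw [hu']
      linarith
    · exfalso
      have h1 : (1 : ℝ) ≤ (k : ℝ) := by exact_mod_cast hk
      have h2 : L ≤ k * L := by nlinarith
      have h3 := hlast j i
      linarith

end Pool.Agent.Helper98.Ring
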