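import Mathlib
import Pool.Agent.Helper98.RingGeom

namespace Pool.Agent.Helper98.Ring

open Filter Topology

theorem convex3_le {a b c r α β : ℝ} (hα : 0 ≤ α) (hβ : 0 ≤ β) (hαβ : α + β ≤ 1)
    (ha : a ≤ r) (hb : α ≠ 0 → b ≤ r) (hc : β ≠ 0 → c ≤ r) :
    (1 - α - β) * a + α * b + β * c ≤ r := by
  have h1 : (1 - α - β) * a ≤ (1 - α - β) * r := mul_le_mul_of_nonneg_left ha (by linarith)
  have h2 : α * b ≤ α * r := by
    by_cases h : α = 0
    · simp [h]
    · exact mul_le_mul_of_nonneg_left (hb h) hα
  have h3 : β * c ≤ β * r := by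
    by_cases h : β = 0
    · simp [h]
    · exact mul_le_mul_of_nonneg_left (hc h) hβ
  nlinarith

theorem convex3_ge {a b c r α β : ℝ} (hα : 0 ≤ α) (hβ : 0 ≤ β) (hαβ : α + β ≤ 1)
    (ha : r ≤ a) (hb : α ≠ 0 → r ≤ b) (hc : β ≠ 0 → r ≤ c) :
    r ≤ (1 - α - β) * a + α * b + β * c := by
  have h1 : (1 - α - β) * r ≤ (1 - α - β) * a := mul_le_mul_of_nonneg_left ha (by linarith)
  have h2 : α * r ≤ α * b := by
    by_cases h : α = 0
    · simp [h]
    · exact mul_le_mul_of_nonneg_left (hb h) hα
  have h3 : β * r ≤ β * c := by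
    by_cases h : β = 0
    · simp [h]
    · exact mul_le_mul_of_nonneg_left (hc h) hβ
  nlinarith

/-- The capped difference is a fraction of the difference. -/
theorem cap_diff (V p q : ℝ) : ∃ θ : ℝ, 0 ≤ θ ∧ θ ≤ 1 ∧ min p V - min q V = θ * (p - q) := by
  rcases eq_or_ne p q with rfl | hne
  · exact ⟨0, le_rfl, zero_le_one, by simp⟩
  refine ⟨(min p V - min q V) / (p - q), ?_, ?_, ?_⟩
  · rcases lt_or_gt_of_ne hne with h | h
    · apply div_nonneg_of_nonpos
      · have := min_le_min_right V h.le; linarith
      · linarith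
    · apply div_nonneg
      · have := min_le_min_right V h.le; linarith
      · linarith
  · rcases lt_or_gt_of_ne hne with h | h
    · rw [div_le_one_of_neg (by linarith)]
      rcases min_cases p V with ⟨h1, _⟩ | ⟨h1, _⟩ <;> rcases min_cases q V with ⟨h2, _⟩ | ⟨h2, _⟩ <;>
        rw [h1, h2] <;> linarith
    · rw [div_le_one (by linarith)]
      rcases min_cases p V with ⟨h1, _⟩ | ⟨h1, _⟩ <;> rcases min_cases q V with ⟨h2, _⟩ | ⟨h2, _⟩ <;>
        rw [h1, h2] <;> linarith
  · rw [div_mul_cancel₀ _ (sub_ne_zero.2 hne)]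

/-- Abstract convergence statement for the synchronous averaging dynamics of the gaps. -/
theorem gaps_converge {n : ℕ} [NeZero n] (L V δ : ℝ) (hL : 0 < L) (hV : 2 * (L / n) ≤ V)
    (hδ : 0 < δ) (G mv : ℕ → Fin n → ℝ)
    (hstep : ∀ t i, G (t + 1) i = G t i + mv t (i + 1) - mv t i)
    (hmv : ∀ t i, ∃ s : ℝ, 0 ≤ s ∧ s ≤ 1 ∧
      mv t i = s * ((min (G t i) V - min (G t (i - 1)) V) / 4))
    (hact : ∀ t i, mv t i = 0 ∨
      min δ |(min (G t i) V - min (G t (i - 1)) V) / 4| ≤ |mv t i|)
    (hfair : ∀ i t, ∃ t' ≥ t,
      min δ |(min (G t' i) V - min (G t' (i - 1)) V) / 4| ≤ |mv t' i|)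
    (hsum : ∀ t, ∑ i, G t i = L) (hpos : ∀ i, 0 < G 0 i) :
    (∀ t i, 0 < G t i) ∧ ∀ ε > 0, ∃ T, ∀ t ≥ T, ∀ i, |G t i - L / n| ≤ ε := by
  have hn : (0 : ℝ) < n := by
    have := NeZero.pos n
    exact_mod_cast this
  have hVpos : 0 < V := lt_of_lt_of_le (by positivity) hV
  -- the moves as fractions of differences
  have hα : ∀ t i, ∃ α : ℝ, 0 ≤ α ∧ α ≤ 1 / 4 ∧ mv t i = α * (G t i - G t (i - 1)) ∧
      (mv t i = 0 → α = 0) := by
    intro t i
    obtain ⟨s, hs0, hs1, hs⟩ := hmv t i
    obtain ⟨θ, hθ0, hθ1, hθ⟩ := cap_diff V (G t i) (G t (i - 1))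
    by_cases h0 : mv t i = 0
    · exact ⟨0, le_rfl, by norm_num, by simp [h0], fun _ => rfl⟩
    · refine ⟨s * θ / 4, by positivity, ?_, ?_, fun h => absurd h h0⟩
      · have : s * θ ≤ 1 := by nlinarith
        linarith
      · rw [hs, hθ]; ring
  choose α hα0 hα1 hαe hαz using hα
  have hG : ∀ t i, G (t + 1) i = (1 - α t i - α t (i + 1)) * G t i + α t i * G t (i - 1) +
      α t (i + 1) * G t (i + 1) := by
    intro t i
    rw [hstep, hαe t i, hαe t (i + 1), add_sub_cancel_right]
    ring
  have hsum4 : ∀ t i, α t i + α t (i + 1) ≤ 1 := fun t i => by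
    have := hα1 t i; have := hα1 t (i + 1); linarith
  -- positivity
  have hGpos : ∀ t i, 0 < G t i := by
    intro t
    induction t with
    | zero => exact hpos
    | succ t ih =>
      intro i
      rw [hG]
      have h1 := ih i
      have h2 := ih (i - 1)
      have h3 := ih (i + 1)
      have h4 := hα0 t i
      have h5 := hα0 t (i + 1)
      have h6 := hα1 t i
      have h7 := hα1 t (i + 1)
      have h8 : 0 < (1 - α t i - α t (i + 1)) * G t i := mul_pos (by linarith) h1
      have h9 : 0 ≤ α t i * G t (i - 1) := mul_nonneg h4 h2.le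
      have h10 : 0 ≤ α t (i + 1) * G t (i + 1) := mul_nonneg h5 h3.le
      linarith
  refine ⟨hGpos, ?_⟩
  have hGle : ∀ t i, G t i ≤ L := by
    intro t i
    rw [← hsum t]
    exact Finset.single_le_sum (f := G t) (fun j _ => (hGpos t j).le) (Finset.mem_univ i)
  -- energy
  have hE : ∀ t, ∑ i, G (t + 1) i ^ 2 ≤ ∑ i, G t i ^ 2 - 4 * ∑ i, mv t i ^ 2 := by
    intro t
    have hshift : ∀ f : Fin n → ℝ, ∑ i, f (i + 1) = ∑ i, f i := fun f =>
      Equiv.sum_comp (Equiv.addRight (1 : Fin n)) f
    have h1 : ∑ i, G (t + 1) i ^ 2 = ∑ i, G t i ^ 2 + 2 * ∑ i, G t i * mv t (i + 1) -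
        2 * ∑ i, G t i * mv t i + ∑ i, (mv t (i + 1) - mv t i) ^ 2 := by
      rw [Finset.mul_sum, Finset.mul_sum, ← Finset.sum_add_distrib, ← Finset.sum_sub_distrib,
        ← Finset.sum_add_distrib]
      apply Finset.sum_congr rfl
      intro i _
      rw [hstep]
      ring
    have h2 : ∑ i, G t i * mv t (i + 1) = ∑ i, G t (i - 1) * mv t i := by
      rw [← hshift (fun i => G t (i - 1) * mv t i)]
      apply Finset.sum_congr rfl
      intro i _
      simp
    have h3 : ∑ i, (mv t (i + 1) - mv t i) ^ 2 ≤ 4 * ∑ i, mv t i ^ 2 := by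
      calc ∑ i, (mv t (i + 1) - mv t i) ^ 2 ≤ ∑ i, (2 * mv t (i + 1) ^ 2 + 2 * mv t i ^ 2) := by
            apply Finset.sum_le_sum
            intro i _
            nlinarith [sq_nonneg (mv t (i + 1) + mv t i)]
        _ = 2 * ∑ i, mv t (i + 1) ^ 2 + 2 * ∑ i, mv t i ^ 2 := by
            rw [Finset.sum_add_distrib, Finset.mul_sum, Finset.mul_sum]
        _ = 4 * ∑ i, mv t i ^ 2 := by
            rw [hshift (fun i => mv t i ^ 2)]; ring
    have h4 : ∀ i, 4 * mv t i ^ 2 ≤ mv t i * (G t i - G t (i - 1)) := by
      intro i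
      rw [hαe t i]
      have := hα0 t i
      have h6 := hα1 t i
      have h5 : 0 ≤ (G t i - G t (i - 1)) ^ 2 := sq_nonneg _
      nlinarith [mul_nonneg this (mul_nonneg h5 (by linarith : (0 : ℝ) ≤ 1 - 4 * α t i))]
    have h5 : 4 * ∑ i, mv t i ^ 2 ≤ ∑ i, G t i * mv t i - ∑ i, G t (i - 1) * mv t i := by
      rw [Finset.mul_sum, ← Finset.sum_sub_distrib]
      apply Finset.sum_le_sum
      intro i _
      have := h4 i
      linarith
    rw [h1, h2]
    linarith
  -- the moves tend to zero
  have hmv0 : ∀ i, Tendsto (fun t => mv t i) atTop (𝓝 0) := by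
    have hsummable : Summable (fun t => 4 * ∑ i, mv t i ^ 2) := by
      apply summable_of_sum_range_le (c := ∑ i, G 0 i ^ 2)
      · intro t; positivity
      · intro t
        have : ∀ t, ∑ s ∈ Finset.range t, (4 * ∑ i, mv s i ^ 2) ≤
            ∑ i, G 0 i ^ 2 - ∑ i, G t i ^ 2 := by
          intro t
          induction t with
          | zero => simp
          | succ t ih =>
            rw [Finset.sum_range_succ]
            have := hE t
            linarith
        have h2 := this t
        have h3 : 0 ≤ ∑ i, G t i ^ 2 := by positivity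
        linarith
    have h1 := hsummable.tendsto_atTop_zero
    intro i
    have h2 : Tendsto (fun t => mv t i ^ 2) atTop (𝓝 0) := by
      refine squeeze_zero (fun t => sq_nonneg _) ?_ h1
      intro t
      have h3 : mv t i ^ 2 ≤ ∑ j, mv t j ^ 2 :=
        Finset.single_le_sum (f := fun j => mv t j ^ 2) (fun j _ => sq_nonneg _) (Finset.mem_univ i)
      have h4 : 0 ≤ ∑ j, mv t j ^ 2 := by positivity
      linarith
    have h3 : Tendsto (fun t => |mv t i|) atTop (𝓝 0) := by
      have h4 := (Real.continuous_sqrt.tendsto 0).comp h2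
      simpa [Function.comp_def, Real.sqrt_sq_eq_abs] using h4
    exact (tendsto_zero_iff_abs_tendsto_zero _).2 h3
  -- a limit point
  obtain ⟨z, _, φ, hφ, hz⟩ : ∃ z ∈ Set.pi Set.univ (fun _ : Fin n => Set.Icc (0 : ℝ) L),
      ∃ φ : ℕ → ℕ, StrictMono φ ∧ Tendsto (G ∘ φ) atTop (𝓝 z) := by
    apply (isCompact_univ_pi (fun _ : Fin n => isCompact_Icc)).tendsto_subseq
    intro t i _
    exact ⟨(hGpos t i).le, hGle t i⟩
  have hzi : ∀ i, Tendsto (fun k => G (φ k) i) atTop (𝓝 (z i)) := fun i =>
    (tendsto_pi_nhds.1 hz) i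
  -- the limit point has no bad sensor
  have hgood : ∀ i, min (z i) V = min (z (i - 1)) V := by
    by_contra hbad
    push Not at hbad
    obtain ⟨i₀, hi₀⟩ := hbad
    -- a positive lower bound for the differences at the bad sensors
    obtain ⟨β, hβ, hβbad⟩ : ∃ β > 0, ∀ i, min (z i) V ≠ min (z (i - 1)) V →
        4 * β ≤ |min (z i) V - min (z (i - 1)) V| := by
      let S : Finset (Fin n) := Finset.univ.filter (fun i => min (z i) V ≠ min (z (i - 1)) V)
      have hS : S.Nonempty := ⟨i₀, by simp [S, hi₀]⟩
      obtain ⟨j, hj, hjmin⟩ := S.exists_min_image (fun i => |min (z i) V - min (z (i - 1)) V|) hS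
      have hj' : min (z j) V ≠ min (z (j - 1)) V := by simpa [S] using hj
      refine ⟨|min (z j) V - min (z (j - 1)) V| / 4, ?_, ?_⟩
      · have : 0 < |min (z j) V - min (z (j - 1)) V| := abs_pos.2 (sub_ne_zero.2 hj')
        linarith
      · intro i hi
        have := hjmin i (by simp [S, hi])
        linarith
    -- times after which the moves are small
    have hsmall : ∀ᶠ t in atTop, ∀ i, |mv t i| < min δ (β / 2) := by
      rw [eventually_all]
      intro i
      have h1 : (0 : ℝ) < min δ (β / 2) := lt_min hδ (by linarith)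
      have h2 := (hmv0 i).abs
      rw [abs_zero] at h2
      exact h2.eventually_lt_const h1
    obtain ⟨T₁, hT₁⟩ := eventually_atTop.1 hsmall
    have hclose : ∀ᶠ k in atTop, ∀ i, |G (φ k) i - z i| ≤ β := by
      rw [eventually_all]
      intro i
      have h1 := (hzi i).sub_const (z i)
      rw [sub_self] at h1
      have h2 := h1.abs
      rw [abs_zero] at h2
      exact (h2.eventually_lt_const hβ).mono fun k hk => hk.le
    obtain ⟨k, hk, hkT⟩ := (hclose.and (hφ.tendsto_atTop.eventually_ge_atTop T₁)).exists
    -- the invariant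
    let Inv : ℕ → Prop := fun t => ∀ i, (z i < V → |G t i - z i| ≤ β) ∧ (V ≤ z i → V - β ≤ G t i)
    have hcapInv : ∀ t, Inv t → ∀ i, |min (G t i) V - min (z i) V| ≤ β := by
      intro t ht i
      rcases lt_or_ge (z i) V with h | h
      · have h1 := (ht i).1 h
        exact (abs_min_sub_min_le_max _ _ _ _).trans (max_le h1 (by simpa using hβ.le))
      · have h1 := (ht i).2 h
        rw [min_eq_right h, abs_le]
        constructor
        · have : V - β ≤ min (G t i) V := le_min h1 (by linarith)
          linarith
        · have := min_le_right (G t i) V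
          linarith
    have hnomove : ∀ t ≥ T₁, Inv t → ∀ i, min (z i) V ≠ min (z (i - 1)) V →
        ¬ (min δ |(min (G t i) V - min (G t (i - 1)) V) / 4| ≤ |mv t i|) := by
      intro t ht hInv i hi hle
      have h1 := hT₁ t ht i
      have h2 := hβbad i hi
      have h3 := hcapInv t hInv i
      have h4 := hcapInv t hInv (i - 1)
      have h5 : β / 2 ≤ |(min (G t i) V - min (G t (i - 1)) V) / 4| := by
        rw [abs_div, abs_of_pos (by norm_num : (0 : ℝ) < 4), le_div_iff₀ (by norm_num)]
        have h6 : |min (z i) V - min (z (i - 1)) V| ≤ |min (G t i) V - min (G t (i - 1)) V| +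
            |min (G t i) V - min (z i) V| + |min (G t (i - 1)) V - min (z (i - 1)) V| := by
          have h7 : min (z i) V - min (z (i - 1)) V = (min (G t i) V - min (G t (i - 1)) V) -
            (min (G t i) V - min (z i) V) + (min (G t (i - 1)) V - min (z (i - 1)) V) := by ring
          rw [h7]
          refine (abs_add_le _ _).trans ?_
          have := abs_sub (min (G t i) V - min (G t (i - 1)) V) (min (G t i) V - min (z i) V)
          linarith
        linarith
      have h6 : min δ (β / 2) ≤ min δ |(min (G t i) V - min (G t (i - 1)) V) / 4| :=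
        min_le_min_left δ h5
      linarith
    have hInvStep : ∀ t ≥ T₁, Inv t → Inv (t + 1) := by
      intro t ht hInv i
      have hαgood : ∀ i, α t i ≠ 0 → min (z i) V = min (z (i - 1)) V := by
        intro i hi
        by_contra hb
        rcases hact t i with h | h
        · exact hi (hαz t i h)
        · exact hnomove t ht hInv i hb h
      have hg1 := hαgood i
      have hg2 := hαgood (i + 1)
      rw [add_sub_cancel_right] at hg2
      constructor
      · intro hzV
        have hleft : α t i ≠ 0 → |G t (i - 1) - z i| ≤ β := by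
          intro h
          have h1 := hg1 h
          rw [min_eq_left hzV.le] at h1
          have h2 : z (i - 1) < V := by
            by_contra hc
            rw [min_eq_right (not_lt.1 hc)] at h1
            linarith
          rw [min_eq_left h2.le] at h1
          rw [h1]
          exact (hInv (i - 1)).1 h2
        have hright : α t (i + 1) ≠ 0 → |G t (i + 1) - z i| ≤ β := by
          intro h
          have h1 := hg2 h
          rw [min_eq_left hzV.le] at h1
          have h2 : z (i + 1) < V := by
            by_contra hc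
            rw [min_eq_right (not_lt.1 hc)] at h1
            linarith
          rw [min_eq_left h2.le] at h1
          rw [← h1]
          exact (hInv (i + 1)).1 h2
        have hself := (hInv i).1 hzV
        rw [abs_le] at hself ⊢
        rw [hG]
        constructor
        · have := convex3_ge (r := z i - β) (hα0 t i) (hα0 t (i + 1)) (hsum4 t i)
            (a := G t i) (b := G t (i - 1)) (c := G t (i + 1)) (by linarith)
            (fun h => by have := (abs_le.1 (hleft h)).1; linarith)
            (fun h => by have := (abs_le.1 (hright h)).1; linarith)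
          linarith
        · have := convex3_le (r := z i + β) (hα0 t i) (hα0 t (i + 1)) (hsum4 t i)
            (a := G t i) (b := G t (i - 1)) (c := G t (i + 1)) (by linarith)
            (fun h => by have := (abs_le.1 (hleft h)).2; linarith)
            (fun h => by have := (abs_le.1 (hright h)).2; linarith)
          linarith
      · intro hzV
        have hleft : α t i ≠ 0 → V - β ≤ G t (i - 1) := by
          intro h
          have h1 := hg1 h
          rw [min_eq_right hzV] at h1
          have h2 : V ≤ z (i - 1) := by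
            by_contra hc
            rw [min_eq_left (not_le.1 hc).le] at h1
            linarith
          exact (hInv (i - 1)).2 h2
        have hright : α t (i + 1) ≠ 0 → V - β ≤ G t (i + 1) := by
          intro h
          have h1 := hg2 h
          rw [min_eq_right hzV] at h1
          have h2 : V ≤ z (i + 1) := by
            by_contra hc
            rw [min_eq_left (not_le.1 hc).le] at h1
            linarith
          exact (hInv (i + 1)).2 h2
        rw [hG]
        exact convex3_ge (hα0 t i) (hα0 t (i + 1)) (hsum4 t i) ((hInv i).2 hzV) hleft hright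
    have hInvAll : ∀ s, Inv (φ k + s) := by
      intro s
      induction s with
      | zero =>
        intro i
        have h1 := hk i
        refine ⟨fun _ => h1, fun h => ?_⟩
        have := (abs_le.1 h1).1
        simp only [add_zero]
        linarith
      | succ s ih => exact hInvStep (φ k + s) (le_trans hkT (Nat.le_add_right _ _)) ih
    obtain ⟨t', ht', hle⟩ := hfair i₀ (φ k)
    have h1 := hInvAll (t' - φ k)
    rw [Nat.add_sub_cancel' ht'] at h1
    exact hnomove t' (by omega) h1 i₀ hi₀ hle
  -- the limit point is the uniform configuration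
  have hzsum : ∑ i, z i = L := by
    have h1 : Tendsto (fun k => ∑ i, G (φ k) i) atTop (𝓝 (∑ i, z i)) :=
      tendsto_finsetSum _ fun i _ => hzi i
    have h2 : (fun k => ∑ i, G (φ k) i) = fun _ => L := funext fun k => hsum (φ k)
    rw [h2] at h1
    exact (tendsto_nhds_unique h1 tendsto_const_nhds)
  have hall : ∀ i, min (z i) V = min (z 0) V := by
    obtain ⟨m, rfl⟩ := Nat.exists_eq_succ_of_ne_zero (NeZero.ne n)
    intro i
    induction i using Fin.induction with
    | zero => rfl
    | succ i ih =>
      rw [← ih, hgood i.succ]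
      congr 2
      rw [sub_eq_iff_eq_add]
      simp
  have hzn : ∀ i, z i = L / n := by
    rcases lt_or_ge (z 0) V with h | h
    · have h1 : ∀ i, z i = z 0 := by
        intro i
        have h2 := hall i
        rw [min_eq_left h.le] at h2
        have h3 : z i < V := by
          by_contra hc
          rw [min_eq_right (not_lt.1 hc)] at h2
          linarith
        rwa [min_eq_left h3.le] at h2
      have h2 : (n : ℝ) * z 0 = L := by
        rw [← hzsum, Finset.sum_congr rfl (fun i _ => h1 i)]
        simp
      intro i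
      rw [h1 i, ← h2]
      field_simp
    · exfalso
      have h1 : ∀ i, V ≤ z i := by
        intro i
        have h2 := hall i
        rw [min_eq_right h] at h2
        by_contra hc
        rw [min_eq_left (not_le.1 hc).le] at h2
        linarith
      have h2 : (n : ℝ) * V ≤ L := by
        rw [← hzsum]
        calc (n : ℝ) * V = ∑ _i : Fin n, V := by simp
          _ ≤ ∑ i, z i := Finset.sum_le_sum fun i _ => h1 i
      have h3 : n * (2 * (L / n)) ≤ n * V := mul_le_mul_of_nonneg_left hV hn.le
      have h4 : (n : ℝ) * (2 * (L / n)) = 2 * L := by field_simp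
      linarith
  -- conclusion
  intro ε hε
  have hclose : ∀ᶠ k in atTop, ∀ i, |G (φ k) i - L / n| ≤ ε := by
    rw [eventually_all]
    intro i
    have h1 := (hzi i).sub_const (z i)
    rw [sub_self] at h1
    have h2 := h1.abs
    rw [abs_zero] at h2
    refine (h2.eventually_lt_const hε).mono fun k hk => ?_
    rw [← hzn i]
    exact hk.le
  obtain ⟨k, hk⟩ := hclose.exists
  refine ⟨φ k, ?_⟩
  intro t ht
  induction t, ht using Nat.le_induction with
  | base => exact hk
  | succ t _ ih =>
    intro i
    have h1 := ih i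
    have h2 := ih (i - 1)
    have h3 := ih (i + 1)
    rw [abs_le] at h1 h2 h3 ⊢
    rw [hG]
    constructor
    · have := convex3_ge (r := L / n - ε) (hα0 t i) (hα0 t (i + 1)) (hsum4 t i)
        (a := G t i) (b := G t (i - 1)) (c := G t (i + 1)) (by linarith)
        (fun _ => by linarith) (fun _ => by linarith)
      linarith
    · have := convex3_le (r := L / n + ε) (hα0 t i) (hα0 t (i + 1)) (hsum4 t i)
        (a := G t i) (b := G t (i - 1)) (c := G t (i + 1)) (by linarith)
        (fun _ => by linarith) (fun _ => by linarith)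
      linarith

end Pool.Agent.Helper98.Ring
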